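import Mathlib
import Pool.Agent.H26.Delta

set_option autoImplicit false

open Set Filter Topology Metric TopologicalSpace

namespace Pool.Agent.Results.MP_53bf97_gt.Full

/-- the hyperspace of subcontinua, with the Hausdorff metric topology -/
abbrev CX (X : Type) [MetricSpace X] : Type := {A : NonemptyCompacts X // IsConnected (A : Set X)}

/-- the relation collapsing `C(p, X)` to a point -/
def rel {X : Type} [MetricSpace X] (p : X) : Setoid (CX X) where
  r A B := A = B ∨ (p ∈ (A.1 : Set X) ∧ p ∈ (B.1 : Set X))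
  iseqv := ⟨fun _ => Or.inl rfl, fun h => h.imp Eq.symm And.symm, by
    rintro A B C (rfl | h) (rfl | h')
    exacts [Or.inl rfl, Or.inr h', Or.inr h, Or.inr ⟨h.1, h'.2⟩]⟩

/-- the quotient space `C(X) / C(p, X)` -/
abbrev HS {X : Type} [MetricSpace X] (p : X) : Type := Quotient (rel p)

/-- aposyndetic at `x` with respect to `y` -/
def Apos {Y : Type} [TopologicalSpace Y] (x y : Y) : Prop :=
  ∃ M : Set Y, IsCompact M ∧ IsConnected M ∧ x ∈ interior M ∧ y ∉ M

section
variable {X : Type} [MetricSpace X]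

theorem meq {p : X} {A B : CX X} : Quotient.mk (rel p) A = Quotient.mk (rel p) B ↔
    A = B ∨ (p ∈ (A.1 : Set X) ∧ p ∈ (B.1 : Set X)) := Quotient.eq

theorem cl_meet {N : Set X} (hN : IsClosed N) : IsClosed {D : CX X | ((D.1 : Set X) ∩ N).Nonempty} :=
  (NonemptyCompacts.isClosed_inter_nonempty_of_isClosed hN).preimage continuous_subtype_val

theorem cl_mem (x : X) : IsClosed {D : CX X | x ∈ (D.1 : Set X)} := by
  simpa using cl_meet (isClosed_singleton (x := x))

variable [CompactSpace X]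

theorem cpt : CompactSpace (CX X) := by
  refine isCompact_iff_compactSpace.1 (IsClosed.isCompact (s := {A : NonemptyCompacts X |
    IsConnected (A : Set X)}) ?_)
  rw [← isOpen_compl_iff, isOpen_iff_mem_nhds]
  intro A hA
  have h : ¬ IsPreconnected (A : Set X) := fun h => hA ⟨A.nonempty, h⟩
  rw [isPreconnected_iff_subset_of_fully_disjoint_closed A.isCompact.isClosed] at h
  push Not at h
  obtain ⟨u, v, hu, hv, huv, hd, h1, h2⟩ := h
  obtain ⟨U, V, hU, hV, a, b, d⟩ := normal_separation hu hv hd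
  obtain ⟨x, hx, hx'⟩ := not_subset.1 h1
  obtain ⟨y, hy, hy'⟩ := not_subset.1 h2
  filter_upwards [(NonemptyCompacts.isOpen_subsets_of_isOpen (hU.union hV)).mem_nhds
    (huv.trans (union_subset_union a b)),
    (NonemptyCompacts.isOpen_inter_nonempty_of_isOpen hU).mem_nhds
      ⟨y, hy, a ((huv hy).resolve_right hy')⟩,
    (NonemptyCompacts.isOpen_inter_nonempty_of_isOpen hV).mem_nhds
      ⟨x, hx, b ((huv hx).resolve_left hx')⟩] with B c1 c2 c3 hB
  obtain ⟨z, -, hz⟩ := hB.2 U V hU hV c1 c2 c3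
  exact disjoint_left.1 d hz.1 hz.2

theorem conn [ConnectedSpace X] {N : Set X} (hN : IsClosed N) (hne : N.Nonempty) :
    IsConnected {D : CX X | ((D.1 : Set X) ∩ N).Nonempty} := by
  haveI := cpt (X := X)
  let T : CX X := ⟨⟨⟨univ, isCompact_univ⟩, univ_nonempty⟩, isConnected_univ⟩
  have hT : T ∈ {D : CX X | ((D.1 : Set X) ∩ N).Nonempty} := by
    obtain ⟨x, hx⟩ := hne
    exact ⟨x, trivial, hx⟩
  refine ⟨⟨T, hT⟩, ?_⟩
  have aux : ∀ u v : Set (CX X), IsClosed u → IsClosed v →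
      {D : CX X | ((D.1 : Set X) ∩ N).Nonempty} ⊆ u ∪ v → Disjoint u v → T ∈ v →
      {D : CX X | ((D.1 : Set X) ∩ N).Nonempty} ⊆ v := by
    intro u v hu hv huv hd hTv D hD
    by_contra hDv
    obtain ⟨s, -, ⟨E, ⟨e1, e2⟩, rfl⟩, hmax⟩ := zorn_subset_nonempty
      ((fun E : CX X => (E.1 : Set X)) '' ({D : CX X | ((D.1 : Set X) ∩ N).Nonempty} ∩ u)) (by
        intro c hc hch hcne
        haveI := hcne.to_subtype
        have hcl : ∀ s : c, IsClosed (({D : CX X | ((D.1 : Set X) ∩ N).Nonempty} ∩ u) ∩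
            ⋂ x ∈ s.1, {D : CX X | x ∈ (D.1 : Set X)}) := fun s =>
          ((cl_meet hN).inter hu).inter (isClosed_biInter fun x _ => cl_mem x)
        obtain ⟨E, hE⟩ := IsCompact.nonempty_iInter_of_directed_nonempty_isCompact_isClosed _
          (fun s t => (hch.total s.2 t.2).elim
            (fun h => ⟨t, inter_subset_inter_right _ (biInter_subset_biInter_left h), subset_rfl⟩)
            fun h => ⟨s, subset_rfl, inter_subset_inter_right _ (biInter_subset_biInter_left h)⟩)
          (fun s => by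
            obtain ⟨E, a, b⟩ := hc s.2
            exact ⟨E, a, mem_iInter₂.2 fun x hx => b.ge hx⟩)
          (fun s => (hcl s).isCompact) hcl
        obtain ⟨s0, hs0⟩ := hcne
        exact ⟨_, ⟨E, (mem_iInter.1 hE ⟨s0, hs0⟩).1, rfl⟩, fun s hs x hx =>
          mem_iInter₂.1 (mem_iInter.1 hE ⟨s, hs⟩).2 x hx⟩)
      _ ⟨D, ⟨hD, (huv hD).resolve_right hDv⟩, rfl⟩
    obtain ⟨y, hy⟩ : ∃ y, y ∉ (E.1 : Set X) := by
      by_contra h
      push Not at h
      have : E = T := Subtype.ext (NonemptyCompacts.ext (eq_univ_of_forall h))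
      exact disjoint_left.1 hd e2 (this ▸ hTv)
    obtain ⟨ε, hε, hb⟩ := Metric.isOpen_iff.1 hv.isOpen_compl E (disjoint_left.1 hd e2)
    obtain ⟨x, hx⟩ := E.1.nonempty
    have hW : (E.1 : Set X) ⊆ {w | infDist w (E.1 : Set X) < ε / 2} ∩ {y}ᶜ := fun w hw =>
      ⟨by rw [mem_setOf_eq, infDist_zero_of_mem hw]; linarith, fun h => hy (h ▸ hw)⟩
    obtain ⟨C, c1, c2, c3, c4, z, c5, c6⟩ := Pool.Agent.H26.Delta.bump isClosed_univ
      isPreconnected_univ ((isOpen_lt (continuous_infDist_pt _) continuous_const).inter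
        isOpen_compl_singleton) (mem_univ x) (hW hx) fun h => (h (mem_univ y)).2 rfl
    let E' : CX X := ⟨⟨⟨E.1 ∪ C, E.1.isCompact.union c1.isCompact⟩, ⟨x, Or.inl hx⟩⟩,
      E.2.union ⟨x, hx, c3⟩ ⟨⟨x, c3⟩, c2⟩⟩
    have hE' : E' ∈ {D : CX X | ((D.1 : Set X) ∩ N).Nonempty} :=
      e1.mono (inter_subset_inter_left _ subset_union_left)
    have hdist : dist E' E < ε := by
      rw [Subtype.dist_eq, NonemptyCompacts.dist_eq]
      refine (hausdorffDist_le_of_infDist (half_pos hε).le ?_ fun w hw => ?_).trans_lt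
        (half_lt_self hε)
      · rintro w (hw | hw)
        · exact (hW hw).1.le
        · exact closure_minimal (t := {w | infDist w (E.1 : Set X) ≤ ε / 2})
            (fun w hw => le_of_lt (show infDist w (E.1 : Set X) < ε / 2 from hw.1))
            (isClosed_le (continuous_infDist_pt _) continuous_const) (c4 hw).2
      · rw [infDist_zero_of_mem (show w ∈ (E'.1 : Set X) from Or.inl hw)]
        linarith
    exact c6 (hW (hmax ⟨E', ⟨hE', (huv hE').resolve_right (hb hdist)⟩, rfl⟩ subset_union_left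
      (Or.inr c5)))
  rw [isPreconnected_iff_subset_of_fully_disjoint_closed (cl_meet hN)]
  intro u v hu hv huv hd
  rcases huv hT with h | h
  exacts [Or.inl (aux v u hv hu (by rwa [union_comm]) hd.symm h), Or.inr (aux u v hu hv huv hd h)]

theorem key [ConnectedSpace X] {p x : X} {A B : CX X} (hA : x ∈ (A.1 : Set X))
    (hB : x ∉ (B.1 : Set X)) (hp : p ∉ (B.1 : Set X)) (h : x = p ∨ p ∉ (A.1 : Set X)) :
    Apos (Quotient.mk (rel p) A) (Quotient.mk (rel p) B) := by
  haveI := cpt (X := X)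
  have hc : Continuous (Quotient.mk (rel p)) := continuous_quotient_mk'
  obtain ⟨r, hr, hb⟩ := nhds_basis_closedBall.mem_iff.1
    (B.1.isCompact.isClosed.isOpen_compl.mem_nhds hB)
  let O : Set (CX X) := {D | ((D.1 : Set X) ∩ ball x r).Nonempty} ∩ {D | x = p ∨ p ∉ (D.1 : Set X)}
  have hO : IsOpen O := ((NonemptyCompacts.isOpen_inter_nonempty_of_isOpen isOpen_ball).preimage
    continuous_subtype_val).inter (isOpen_const.union (cl_mem p).isOpen_compl)
  have hO' : IsOpen (Quotient.mk (rel p) '' O) := by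
    rw [← isQuotientMap_quotient_mk'.isOpen_preimage]
    convert hO using 1
    refine Subset.antisymm ?_ (subset_preimage_image _ _)
    rintro D ⟨D', hD', e⟩
    rcases meq.1 e with rfl | e
    · exact hD'
    · have := hD'.2.resolve_right (not_not.2 e.1)
      exact ⟨⟨p, e.2, this ▸ mem_ball_self hr⟩, Or.inl this⟩
  refine ⟨Quotient.mk (rel p) '' {D | ((D.1 : Set X) ∩ closedBall x r).Nonempty},
    (cl_meet isClosed_closedBall).isCompact.image hc,
    (conn isClosed_closedBall ⟨x, mem_closedBall_self hr.le⟩).image _ hc.continuousOn,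
    interior_maximal (image_mono fun D hD => hD.1.mono
      (inter_subset_inter_right _ ball_subset_closedBall)) hO'
      ⟨A, ⟨⟨x, hA, mem_ball_self hr⟩, h⟩, rfl⟩, ?_⟩
  rintro ⟨D, ⟨z, hz, hz'⟩, e⟩
  rcases meq.1 e with rfl | e
  exacts [hb hz' hz, hp e.2]

end

/-- the harmonic fan -/
def fan : Set (ℝ × ℝ) :=
  (fun z : ℝ × ℝ => (z.1, z.1 * z.2)) '' (Icc 0 1 ×ˢ insert 0 (range fun n : ℕ => 1 / ((n : ℝ) + 1)))

theorem result :
    (∃ (X : Type) (_ : MetricSpace X) (_ : CompactSpace X) (_ : ConnectedSpace X) (_ : Nontrivial X)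
      (p : X), ¬ ∀ a b : HS p, a ≠ b → Apos a b) ∧
    ∀ (X : Type) [MetricSpace X] [CompactSpace X] [ConnectedSpace X] [Nontrivial X] (p : X),
      ∀ a b : HS p, a ≠ b → Apos a b ∨ Apos b a := by
  constructor
  · have h0 : ((0 : ℝ), (0 : ℝ)) ∈ fan := ⟨(0, 0), ⟨⟨le_rfl, zero_le_one⟩, Or.inl rfl⟩, by simp⟩
    have h1 : ((1 : ℝ), (0 : ℝ)) ∈ fan := ⟨(1, 0), ⟨⟨zero_le_one, le_rfl⟩, Or.inl rfl⟩, by simp⟩
    have h2 : ∀ n : ℕ, ((1 : ℝ), 1 / ((n : ℝ) + 1)) ∈ fan := fun n =>
      ⟨(1, _), ⟨⟨zero_le_one, le_rfl⟩, Or.inr ⟨n, rfl⟩⟩, by simp⟩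
    haveI hc : CompactSpace fan := isCompact_iff_compactSpace.1 ((isCompact_Icc.prod
      tendsto_one_div_add_atTop_nhds_zero_nat.isCompact_insert_range).image (by fun_prop))
    have hn : ConnectedSpace fan := isConnected_iff_connectedSpace.1 ⟨⟨_, h0⟩,
      isPreconnected_of_forall (0, 0) (by
        rintro _ ⟨⟨t, s⟩, ⟨ht, hs⟩, rfl⟩
        refine ⟨(fun t : ℝ => (t, t * s)) '' Icc 0 1, ?_, ⟨0, ⟨le_rfl, zero_le_one⟩, by simp⟩,
          ⟨t, ht, rfl⟩, isPreconnected_Icc.image _ (by fun_prop)⟩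
        rintro _ ⟨u, hu, rfl⟩
        exact ⟨(u, s), ⟨hu, hs⟩, rfl⟩)⟩
    let p : fan := ⟨_, h0⟩
    let sg : fan → CX fan := fun x => ⟨{x}, isConnected_singleton⟩
    have hsg : Continuous sg := NonemptyCompacts.continuous_singleton.subtype_mk _
    have hq : Continuous (Quotient.mk (rel p)) := continuous_quotient_mk'
    have hmem : ∀ x y : fan, y ∈ ((sg x).1 : Set fan) ↔ y = x := fun _ _ => Iff.rfl
    refine ⟨fan, inferInstance, hc, hn, ⟨⟨p, ⟨_, h1⟩, by simp [p]⟩⟩, p, fun H => ?_⟩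
    obtain ⟨M, -, hM, ha, hb⟩ := H (Quotient.mk _ (sg ⟨_, h1⟩)) (Quotient.mk _ (sg p)) fun e => by
      rcases meq.1 e with e | e
      · have := (hmem _ p).1 (e ▸ (hmem p p).2 rfl)
        simp [p] at this
      · have := (hmem _ p).1 e.1
        simp [p] at this
    have hp : ∀ D : CX fan, Quotient.mk (rel p) D ∈ M → p ∉ (D.1 : Set fan) := fun D hD h =>
      hb (meq.2 (Or.inr ⟨h, (hmem p p).2 rfl⟩) ▸ hD)
    have hlim : Tendsto (fun n : ℕ => (⟨_, h2 n⟩ : fan)) atTop (𝓝 ⟨_, h1⟩) :=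
      tendsto_subtype_rng.2 (tendsto_const_nhds.prodMk_nhds tendsto_one_div_add_atTop_nhds_zero_nat)
    obtain ⟨n, hn⟩ := ((((hq.comp hsg).tendsto _).comp hlim).eventually
      (mem_interior_iff_mem_nhds.1 ha)).exists
    have hpos : (0 : ℝ) < n + 3 / 2 := by positivity
    let F1 : Set fan := {z | z.1.1 ≤ (n + 3 / 2) * z.1.2}
    let F2 : Set fan := {z | (n + 3 / 2) * z.1.2 ≤ z.1.1}
    have f1 : IsClosed F1 := isClosed_le (by fun_prop) (by fun_prop)
    have f2 : IsClosed F2 := isClosed_le (by fun_prop) (by fun_prop)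
    have f3 : ∀ z ∈ F1, z ∈ F2 → z = p := by
      rintro ⟨_, ⟨t, s⟩, ⟨ht, hs⟩, rfl⟩ a b
      have e : t * (1 - (n + 3 / 2) * s) = 0 := by
        simp only [F1, F2, mem_setOf_eq] at a b
        linarith
      rcases mul_eq_zero.1 e with rfl | e
      · simp [p]
      · exfalso
        rcases hs with hs | ⟨m, hs⟩
        · simp only at hs
          rw [hs] at e
          simp at e
        · simp only at hs
          rw [← hs] at e
          field_simp at e
          have : (2 * m + 2 : ℝ) = 2 * n + 3 := by linarith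
          have : 2 * m + 2 = 2 * n + 3 := by exact_mod_cast this
          omega
    have hcl : ∀ F : Set fan, IsClosed F → p ∈ F →
        IsClosed (Quotient.mk (rel p) '' {D | (D.1 : Set fan) ⊆ F}) := by
      intro F hF hpF
      rw [← isQuotientMap_quotient_mk'.isClosed_preimage]
      convert ((NonemptyCompacts.isClosed_subsets_of_isClosed hF).preimage
        (continuous_subtype_val (p := fun A : NonemptyCompacts fan =>
          IsConnected (A : Set fan)))).union (cl_mem p) using 1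
      ext D
      constructor
      · rintro ⟨D', hD', e⟩
        rcases meq.1 e with rfl | e
        exacts [Or.inl hD', Or.inr e.2]
      · rintro (h | h)
        exacts [⟨D, h, rfl⟩, ⟨sg p, fun y hy => (hmem _ _).1 hy ▸ hpF,
          meq.2 (Or.inr ⟨(hmem p p).2 rfl, h⟩)⟩]
    have hback : ∀ (F : Set fan) D, Quotient.mk (rel p) D ∈ M →
        Quotient.mk (rel p) D ∈ Quotient.mk (rel p) '' {D | (D.1 : Set fan) ⊆ F} →
        (D.1 : Set fan) ⊆ F := by
      rintro F D hD ⟨D', hD', e⟩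
      rcases meq.1 e with rfl | e
      exacts [hD', absurd e.2 (hp D hD)]
    rcases isPreconnected_iff_subset_of_disjoint_closed.1 hM.2 _ _ (hcl F1 f1 (by simp [F1, p]))
      (hcl F2 f2 (by simp [F2, p])) (by
        intro y hy
        obtain ⟨D, rfl⟩ := Quotient.exists_rep y
        exact (isPreconnected_iff_subset_of_disjoint_closed.1 D.2.2 _ _ f1 f2
          (fun z _ => le_total z.1.1 ((n + 3 / 2) * z.1.2)) (eq_empty_iff_forall_notMem.2 fun z hz =>
            hp D hy (f3 z hz.2.1 hz.2.2 ▸ hz.1))).imp (fun h => ⟨D, h, rfl⟩) fun h => ⟨D, h, rfl⟩)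
      (eq_empty_iff_forall_notMem.2 fun y hy => by
        obtain ⟨D, rfl⟩ := Quotient.exists_rep y
        obtain ⟨z, hz⟩ := D.1.nonempty
        exact hp D hy.1 (f3 z (hback _ D hy.1 hy.2.1 hz) (hback _ D hy.1 hy.2.2 hz) ▸ hz))
      with h | h
    · have := hback _ _ (interior_subset ha) (h (interior_subset ha)) ((hmem _ _).2 rfl)
      simp only [F1, mem_setOf_eq] at this
      linarith
    · have := hback _ _ hn (h hn) ((hmem _ _).2 rfl)
      simp only [F2, mem_setOf_eq] at this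
      rw [mul_one_div, div_le_one (by positivity)] at this
      linarith
  · intro X _ _ _ _ p a b hab
    obtain ⟨A, rfl⟩ := Quotient.exists_rep a
    obtain ⟨B, rfl⟩ := Quotient.exists_rep b
    rw [Ne, meq, not_or] at hab
    by_cases hA : p ∈ (A.1 : Set X)
    · exact Or.inl (key hA (fun h => hab.2 ⟨hA, h⟩) (fun h => hab.2 ⟨hA, h⟩) (Or.inl rfl))
    by_cases hB : p ∈ (B.1 : Set X)
    · exact Or.inr (key hB hA hA (Or.inl rfl))
    by_cases h : (A.1 : Set X) ⊆ B.1
    · obtain ⟨x, hx, hx'⟩ := not_subset.1 fun h' =>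
        hab.1 (Subtype.ext (NonemptyCompacts.ext (h.antisymm h')))
      exact Or.inr (key hx hx' hA (Or.inr hB))
    · obtain ⟨x, hx, hx'⟩ := not_subset.1 h
      exact Or.inl (key hx hx' hB (Or.inr hA))

end Pool.Agent.Results.MP_53bf97_gt.Full
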